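import Pool.Agent.Y938.RT.Stm

/-! RT2: the inequality. -/

set_option autoImplicit false

namespace Pool.Agent.Y938.RT

namespace Ineq

theorem rho_pos (s : ℝ) : 0 < rho s := by
  unfold rho
  positivity

theorem rho_anti {a b : ℝ} (h : a ≤ b) : rho b ≤ rho a := by
  unfold rho
  have : Real.exp (-b) ≤ Real.exp (-a) := Real.exp_le_exp.2 (by linarith)
  linarith

theorem rho_le {s : ℝ} (h : 0 ≤ s) : rho s ≤ 1 / 10 := by
  have h1 := rho_anti h
  have h2 : rho 0 = 1 / 10 := by simp [rho]
  linarith

theorem rho_mul (c q : ℝ) : rho (c + q) = rho c * Real.exp (-q) := by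
  unfold rho
  rw [neg_add, Real.exp_add]
  ring

theorem lip {a b : ℝ} (ha : 0 ≤ a) (h : a ≤ b) : rho a - rho b ≤ (b - a) / 10 := by
  have h1 := rho_mul a (b - a)
  rw [add_sub_cancel] at h1
  have h2 := Real.add_one_le_exp (-(b - a))
  have h3 := rho_le ha
  have h4 := (rho_pos a).le
  rw [h1]
  nlinarith

theorem lip_abs {a b : ℝ} (ha : 0 ≤ a) (hb : 0 ≤ b) : |rho b - rho a| ≤ |a - b| / 10 := by
  rcases le_total a b with h | h
  · have h1 := lip ha h
    have h2 := rho_anti h
    rw [abs_of_nonpos (by linarith), abs_of_nonpos (by linarith)]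
    linarith
  · have h1 := lip hb h
    have h2 := rho_anti h
    rw [abs_of_nonneg (by linarith), abs_of_nonneg (by linarith)]
    linarith

theorem R_mono {s m m' : ℝ} (h : m ≤ m') : R s m ≤ R s m' := by
  unfold R
  have : max (rho s - (s - m) / 2) 0 ≤ max (rho s - (s - m') / 2) 0 :=
    max_le_max (by linarith) le_rfl
  linarith

theorem R_diff {sx sy m : ℝ} (hx : 0 ≤ sx) (hy : 0 ≤ sy) :
    R sy m - R sx m ≤ 3 / 5 * |sx - sy| := by
  unfold R
  have h1 := abs_max_sub_max_le_abs (rho sy - (sy - m) / 2) (rho sx - (sx - m) / 2) 0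
  have h2 := lip_abs hx hy
  have h3 : |(rho sy - (sy - m) / 2) - (rho sx - (sx - m) / 2)| ≤
      |rho sy - rho sx| + |sx - sy| / 2 := by
    have e : (rho sy - (sy - m) / 2) - (rho sx - (sx - m) / 2) =
        (rho sy - rho sx) + (sx - sy) / 2 := by ring
    rw [e]
    refine (abs_add_le _ _).trans ?_
    rw [abs_div, abs_of_pos (by norm_num : (0 : ℝ) < 2)]
  have h4 := (le_abs_self _).trans h1
  linarith

end Ineq

open Ineq in
theorem ineq_spec : S_ineq := by
  intro sx sy c μ ν hc hcx hcy hμ0 hμ hν0 hν h1 h2 h3 ht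
  have hy0 : 0 ≤ sy := hc.trans hcy
  have hx0 : 0 ≤ sx := hc.trans hcx
  have hcost1 : R sy ν - max (R sx μ) ν ≤ rho sy := by
    have k1 : ν ≤ max (R sx μ) ν := le_max_right _ _
    have k2 : max (rho sy - (sy - ν) / 2) 0 ≤ rho sy := by
      apply max_le _ (rho_pos sy).le
      linarith
    unfold R at *
    linarith
  have hcost2 : R sy ν - max (R sx μ) ν ≤ R sy ν - R sx μ := by
    have k1 : R sx μ ≤ max (R sx μ) ν := le_max_left _ _
    linarith
  have hρ := rho_anti hcy
  have hρc := rho_le hc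
  by_cases ht1 : sx + sy - 2 * c ≤ 1
  swap
  · have e : psi (sx + sy - 2 * c) = 1 / 2 := by
      unfold psi
      rw [if_neg ht1]
    rw [e]
    linarith
  have e : psi (sx + sy - 2 * c) = (sx + sy - 2 * c) - (sx + sy - 2 * c) ^ 2 / 8 := by
    unfold psi
    rw [if_pos ht1]
  have h78 : 7 / 8 * (sx + sy - 2 * c) ≤ psi (sx + sy - 2 * c) := by
    rw [e]
    nlinarith
  have habs : |sx - sy| ≤ sx + sy - 2 * c := by
    rw [abs_le]
    constructor <;> linarith
  by_cases hμc : μ < c
  · have hνμ : ν ≤ μ := by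
      rcases min_le_iff.1 h2 with h | h
      · linarith
      · exact h
    have hμν : μ ≤ ν := by
      rw [min_eq_right hμc.le] at h3
      exact h3
    have hEq : ν = μ := le_antisymm hνμ hμν
    subst hEq
    have k := R_diff (m := ν) hx0 hy0
    linarith
  rw [not_lt] at hμc
  rw [min_eq_left hμc] at h3
  rcases min_le_iff.1 h1 with hm | hm
  · have hμe : μ = c := le_antisymm hm hμc
    subst hμe
    -- ν ≥ c
    obtain ⟨q, rfl⟩ : ∃ q, sy = μ + q := ⟨sy - μ, by ring⟩
    obtain ⟨p, rfl⟩ : ∃ p, sx = μ + p := ⟨sx - μ, by ring⟩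
    have hq : 0 ≤ q := by linarith
    have hp : 0 ≤ p := by linarith
    by_cases hb : rho (μ + q) - (μ + q - ν) / 2 ≤ 0
    · have k1 : R (μ + q) ν = ν := by
        unfold R
        rw [max_eq_right hb, add_zero]
      have k2 : ν ≤ max (R (μ + p) μ) ν := le_max_right _ _
      linarith
    rw [not_le] at hb
    by_cases hqr : q ≤ 2 * rho μ
    · have k1 : R (μ + q) ν = ν + (rho (μ + q) - (μ + q - ν) / 2) := by
        unfold R
        rw [max_eq_left hb.le]
      have k2 : μ + (rho (μ + p) - (μ + p - μ) / 2) ≤ R (μ + p) μ := by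
        unfold R
        have := le_max_left (rho (μ + p) - (μ + p - μ) / 2) 0
        linarith
      have k3 := rho_mul μ q
      have k4 := rho_mul μ p
      have k5 := Real.add_one_le_exp (-p)
      have hr0 := rho_pos μ
      have k6 : Real.exp (-q) ≤ 1 - q / 2 := by
        have hq5 : q ≤ 1 / 5 := by linarith
        have a1 : Real.exp (-q) * Real.exp q = 1 := by rw [← Real.exp_add]; simp
        have a2 := Real.add_one_le_exp q
        have a3 := Real.exp_pos (-q)
        nlinarith
      have k7 : rho μ * Real.exp (-q) ≤ rho μ * (1 - q / 2) :=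
        mul_le_mul_of_nonneg_left k6 hr0.le
      have k8 : rho μ * (-p + 1) ≤ rho μ * Real.exp (-p) :=
        mul_le_mul_of_nonneg_left k5 hr0.le
      have k9 : rho μ * p ≤ 1 / 10 * p := mul_le_mul_of_nonneg_right hρc hp
      have k10 : q * q / 4 ≤ rho μ * (q / 2) := by nlinarith
      rw [e]
      have k11 : p ≤ 1 := by linarith
      have k12 : R (μ + q) ν - R (μ + p) μ ≤ q + 3 / 5 * p - q * q / 4 := by
        have b1 : ν - (μ + q - ν) / 2 - μ ≤ q := by linarith
        have b2 : rho (μ + q) - rho (μ + p) ≤ 1 / 10 * p - q * q / 4 := by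
          rw [k3, k4]
          linarith
        linarith
      have k13 : (p + q) ^ 2 ≤ 2 * p + 2 * (q * q) := by
        have b1 : p * p ≤ p * 1 := mul_le_mul_of_nonneg_left k11 hp
        have b2 := sq_nonneg (p - q)
        have b3 : (p + q) ^ 2 = 2 * (p * p) + 2 * (q * q) - (p - q) ^ 2 := by ring
        linarith
      have e2 : μ + p + (μ + q) - 2 * μ = p + q := by ring
      rw [e2]
      linarith
    · rw [not_le] at hqr
      linarith
  · have hνe : ν = c := le_antisymm hm h3
    subst hνe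
    have k1 : R sx ν ≤ R sx μ := R_mono hμc
    have k := R_diff (m := ν) hx0 hy0
    linarith

end Pool.Agent.Y938.RT
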