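import Pool.Agent.Y938.RT.Stm

/-!
The multivalued map (helper569, project RT of helper938).
-/

set_option autoImplicit false

open Filter Topology Set

namespace Pool.Agent.Y938.RT

namespace Neg

variable {X : Type} [MetricSpace X] {h : X → ℝ} {m : X → X → ℝ}

theorem le_right (hT : IsTree X h m) (x y : X) : m x y ≤ h y := by
  rw [hT.symm]
  exact hT.le y x

theorem cont_h (hT : IsTree X h m) : Continuous h := by
  have hL : LipschitzWith 1 h := by
    refine LipschitzWith.of_dist_le_mul (fun u v => ?_)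
    rw [NNReal.coe_one, one_mul, Real.dist_eq, hT.dist_eq, abs_le]
    have h1 := hT.le u v
    have h2 := le_right hT u v
    constructor <;> linarith
  exact hL.continuous

theorem cont_m (hT : IsTree X h m) (y : X) : Continuous (fun v => m v y) := by
  have h1 : (fun v => m v y) = fun v => (h v + h y - dist v y) / 2 := by
    funext v
    rw [hT.dist_eq]
    ring
  rw [h1]
  have h2 := cont_h hT
  fun_prop

theorem cont_R (s : ℝ) : Continuous (R s) := by
  unfold R
  fun_prop

theorem rho_pos (s : ℝ) : 0 < rho s := by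
  unfold rho
  positivity

theorem le_R (s μ : ℝ) : μ ≤ R s μ := by
  unfold R
  have := le_max_right (rho s - (s - μ) / 2) 0
  linarith

theorem lt_R (s : ℝ) : s < R s s := by
  unfold R
  have := le_max_left (rho s - (s - s) / 2) 0
  have := rho_pos s
  linarith

theorem psi_nonneg {t : ℝ} (ht : 0 < t) : 0 ≤ psi t := by
  unfold psi
  split_ifs with h1
  · nlinarith
  · norm_num

theorem psi_lt_phi {t : ℝ} (ht : 0 < t) : psi t < phi t := by
  unfold psi phi
  split_ifs with h1
  · have := pow_pos ht 2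
    linarith
  · norm_num

theorem phi_pos {t : ℝ} (ht : 0 < t) : 0 < phi t :=
  (psi_nonneg ht).trans_lt (psi_lt_phi ht)

theorem phi_L (s : ℝ) (hs : 0 < s) :
    ∃ δ : ℝ, 0 < δ ∧ ∀ t ∈ Set.Icc s (s + δ), phi t ≤ s := by
  by_cases h1 : s ≤ 1
  · refine ⟨s ^ 2 / 16, by positivity, ?_⟩
    rintro t ⟨ht1, ht2⟩
    unfold phi
    split_ifs with h2
    · nlinarith
    · nlinarith
  · refine ⟨1, one_pos, ?_⟩
    rintro t ⟨ht1, ht2⟩
    unfold phi
    rw [if_neg (by linarith)]
    linarith

/-- the map -/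
def T (h : X → ℝ) (m : X → X → ℝ) (y : X) : Set X := {v | R (h y) (m v y) ≤ h v}

theorem T_closed (hT : IsTree X h m) (y : X) : IsClosed (T h m y) :=
  isClosed_le ((cont_R (h y)).comp (cont_m hT y)) (cont_h hT)

theorem T_nonempty (hT : IsTree X h m) (y : X) : (T h m y).Nonempty := by
  obtain ⟨v, hv1, hv2, _⟩ := hT.ext y y (R (h y) (h y)) (le_R _ _)
  refine ⟨v, ?_⟩
  change R (h y) (m v y) ≤ h v
  rw [hv1, hv2, hT.self]

theorem not_mem (hT : IsTree X h m) (x : X) : x ∉ T h m x := by
  intro hx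
  have h1 : R (h x) (m x x) ≤ h x := hx
  rw [hT.self] at h1
  exact absurd (lt_R (h x)) (not_lt.2 h1)

theorem near (h2 : S_ineq) (hT : IsTree X h m) (x y : X) (hxy : x ≠ y) (u : X)
    (hu : u ∈ T h m x) : ∃ v ∈ T h m y, dist u v ≤ psi (dist x y) := by
  have hd : 0 < dist x y := dist_pos.2 hxy
  by_cases huy : u ∈ T h m y
  · exact ⟨u, huy, by rw [dist_self]; exact psi_nonneg hd⟩
  · have h3 : h u < R (h y) (m u y) := not_le.1 huy
    obtain ⟨v, hv1, hv2, hv3⟩ := hT.ext u y (R (h y) (m u y)) h3.le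
    refine ⟨v, ?_, ?_⟩
    · change R (h y) (m v y) ≤ h v
      rw [hv1, hv2]
    · have h4 : R (h x) (m u x) ≤ h u := hu
      have h5 := hT.le u y
      have t1 := hT.tri x u y
      have t2 := hT.tri x y u
      have t3 := hT.tri y x u
      rw [hT.symm x u] at t1 t2
      rw [hT.symm y u] at t2 t3
      rw [hT.symm y x, hT.symm x u] at t3
      have h6 := h2 (h x) (h y) (m x y) (m u x) (m u y) (hT.nonneg x y) (hT.le x y)
        (le_right hT x y) (hT.nonneg u x) (le_right hT u x) (hT.nonneg u y) (le_right hT u y)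
        t1 t2 t3 (by rw [← hT.dist_eq]; exact hd)
      have h7 : max (R (h x) (m u x)) (m u y) ≤ h u := max_le h4 h5
      rw [← hT.dist_eq] at h6
      rw [hT.dist_eq u v, hv1, hv3]
      linarith

end Neg

open Pool.Agent.Y938.RT.Neg in
theorem neg_spec (h1 : S_tree) (h2 : S_ineq) : S_neg := by
  obtain ⟨X, _, _, _, h, m, hT⟩ := h1
  intro hall
  obtain ⟨x, hx⟩ := hall X (T h m) phi (fun x => ⟨T_nonempty hT x, T_closed hT x⟩)
    (by simp [phi]) (fun s hs => phi_pos hs) phi_L (by
      intro x y hxy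
      have hd : 0 < dist x y := dist_pos.2 hxy
      refine lt_of_le_of_lt (Metric.hausdorffEDist_le_of_mem_edist
        (r := ENNReal.ofReal (psi (dist x y))) ?_ ?_) ?_
      · intro u hu
        obtain ⟨v, hv, hv'⟩ := near h2 hT x y hxy u hu
        refine ⟨v, hv, ?_⟩
        rw [edist_dist]
        exact ENNReal.ofReal_le_ofReal hv'
      · intro u hu
        obtain ⟨v, hv, hv'⟩ := near h2 hT y x hxy.symm u hu
        refine ⟨v, hv, ?_⟩
        rw [edist_dist, dist_comm x y]
        exact ENNReal.ofReal_le_ofReal hv'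
      · exact (ENNReal.ofReal_lt_ofReal_iff (phi_pos hd)).2 (psi_lt_phi hd))
  exact not_mem hT x hx

end Pool.Agent.Y938.RT
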