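import Mathlib

/-!
Project RT (MP_3789da_an, frozen statement S04342): multivalued Meir-Keeler (even Reich type) contractions
with closed values on a complete real tree without fixed points.
-/

set_option autoImplicit false

open Filter Topology Set

namespace Pool.Agent.Y938.RT

/-- the local step -/
noncomputable def rho (s : ℝ) : ℝ := Real.exp (-s) / 10

/-- the threshold function -/
noncomputable def R (s m : ℝ) : ℝ := m + max (rho s - (s - m) / 2) 0

/-- the L-function -/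
noncomputable def phi (t : ℝ) : ℝ := if t ≤ 1 then t - t ^ 2 / 16 else 15 / 16

/-- the actual modulus -/
noncomputable def psi (t : ℝ) : ℝ := if t ≤ 1 then t - t ^ 2 / 8 else 1 / 2

/-- a rooted real tree with height `h` and meet height `m`, in which every point can be extended upwards,
leaving any given other point -/
structure IsTree (X : Type) [MetricSpace X] (h : X → ℝ) (m : X → X → ℝ) : Prop where
  nonneg : ∀ x y, 0 ≤ m x y
  le : ∀ x y, m x y ≤ h x
  symm : ∀ x y, m x y = m y x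
  self : ∀ x, m x x = h x
  dist_eq : ∀ x y, dist x y = h x + h y - 2 * m x y
  tri : ∀ x y z, min (m x y) (m y z) ≤ m x z
  ext : ∀ (u y : X) (r : ℝ), h u ≤ r → ∃ v : X, h v = r ∧ m v y = m u y ∧ m u v = h u

/-- RT1. -/
def S_tree : Prop :=
  ∃ (X : Type) (_ : MetricSpace X) (_ : CompleteSpace X) (_ : Nonempty X) (h : X → ℝ) (m : X → X → ℝ),
    IsTree X h m

/-- RT2. -/
def S_ineq : Prop :=
  ∀ sx sy c μ ν : ℝ, 0 ≤ c → c ≤ sx → c ≤ sy → 0 ≤ μ → μ ≤ sx → 0 ≤ ν → ν ≤ sy →
    min μ ν ≤ c → min c ν ≤ μ → min c μ ≤ ν → 0 < sx + sy - 2 * c →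
    R sy ν - max (R sx μ) ν ≤ psi (sx + sy - 2 * c)

/-- RT3. -/
def S_neg : Prop :=
  ¬ (∀ (X : Type) [MetricSpace X] [CompleteSpace X] [Nonempty X]
      (T : X → Set X) (φ : ℝ → ℝ),
      (∀ x, (T x).Nonempty ∧ IsClosed (T x)) →
      φ 0 = 0 →
      (∀ s : ℝ, 0 < s → 0 < φ s) →
      (∀ s : ℝ, 0 < s → ∃ δ : ℝ, 0 < δ ∧ ∀ t ∈ Set.Icc s (s + δ), φ t ≤ s) →
      (∀ x y : X, x ≠ y →
        EMetric.hausdorffEdist (T x) (T y) < ENNReal.ofReal (φ (dist x y))) →
      ∃ x : X, x ∈ T x)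

end Pool.Agent.Y938.RT
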