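import Pool.Agent.Y938.RT.Stm

/-!
RT1: a complete real tree with branching everywhere.
-/

set_option autoImplicit false

open Filter Topology Set

namespace Pool.Agent.Y938.RT

namespace TreeAux

/-- points of the tree: a height and a coding of the path from the root -/
structure Pt where
  s : ℝ
  f : ℝ → Bool
  s0 : 0 ≤ s
  fneg : ∀ t, t < 0 → f t = false
  fbig : ∀ t, s ≤ t → f t = false

theorem Pt.ext' {x y : Pt} (h1 : x.s = y.s) (h2 : ∀ t, x.f t = y.f t) : x = y := by
  obtain ⟨s, f, _, _, _⟩ := x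
  obtain ⟨s', f', _, _, _⟩ := y
  obtain rfl : s = s' := h1
  obtain rfl : f = f' := funext h2
  rfl

/-- the points `x` and `y` agree up to the height `r` -/
def Agree (x y : Pt) (r : ℝ) : Prop :=
  0 ≤ r ∧ r ≤ x.s ∧ r ≤ y.s ∧ ∀ t, 0 ≤ t → t < r → x.f t = y.f t

/-- the height of the meet -/
noncomputable def mt (x y : Pt) : ℝ := sSup {r | Agree x y r}

theorem agree_zero (x y : Pt) : Agree x y 0 :=
  ⟨le_rfl, x.s0, y.s0, fun _ h1 h2 => absurd h1 (not_le.2 h2)⟩

theorem bdd (x y : Pt) : BddAbove {r | Agree x y r} := ⟨x.s, fun _ hr => hr.2.1⟩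

theorem le_mt {x y : Pt} {r : ℝ} (h : Agree x y r) : r ≤ mt x y := le_csSup (bdd x y) h

theorem agree_mt (x y : Pt) : Agree x y (mt x y) := by
  refine ⟨le_mt (agree_zero x y), csSup_le ⟨0, agree_zero x y⟩ fun r hr => hr.2.1,
    csSup_le ⟨0, agree_zero x y⟩ fun r hr => hr.2.2.1, fun t h0 ht => ?_⟩
  obtain ⟨r, hr, htr⟩ := exists_lt_of_lt_csSup ⟨0, agree_zero x y⟩ ht
  exact hr.2.2.2 t h0 htr

theorem Agree.mono {x y : Pt} {r r' : ℝ} (h : Agree x y r) (h0 : 0 ≤ r') (h1 : r' ≤ r) :
    Agree x y r' :=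
  ⟨h0, h1.trans h.2.1, h1.trans h.2.2.1, fun t ht ht' => h.2.2.2 t ht (ht'.trans_le h1)⟩

theorem Agree.symm {x y : Pt} {r : ℝ} (h : Agree x y r) : Agree y x r :=
  ⟨h.1, h.2.2.1, h.2.1, fun t h1 h2 => (h.2.2.2 t h1 h2).symm⟩

theorem Agree.trans {x y z : Pt} {r : ℝ} (h : Agree x y r) (h' : Agree y z r) : Agree x z r :=
  ⟨h.1, h.2.1, h'.2.2.1, fun t h1 h2 => (h.2.2.2 t h1 h2).trans (h'.2.2.2 t h1 h2)⟩

theorem mt_eq {x y : Pt} {a : ℝ} (h : Agree x y a) (h' : ∀ r, Agree x y r → r ≤ a) :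
    mt x y = a :=
  le_antisymm (h' _ (agree_mt x y)) (le_mt h)

theorem mt_symm (x y : Pt) : mt x y = mt y x :=
  mt_eq (agree_mt y x).symm fun _ hr => le_mt hr.symm

theorem mt_self (x : Pt) : mt x x = x.s :=
  mt_eq ⟨x.s0, le_rfl, le_rfl, fun _ _ _ => rfl⟩ fun _ hr => hr.2.1

theorem mt_tri (x y z : Pt) : min (mt x y) (mt y z) ≤ mt x z := by
  have h1 := agree_mt x y
  have h2 := agree_mt y z
  have h0 : 0 ≤ min (mt x y) (mt y z) := le_min h1.1 h2.1
  exact le_mt ((h1.mono h0 (min_le_left _ _)).trans (h2.mono h0 (min_le_right _ _)))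

theorem eq_of_mt {x y : Pt} (h : x.s + y.s - 2 * mt x y = 0) : x = y := by
  have h1 := agree_mt x y
  have hx : mt x y = x.s := by linarith [h1.2.1, h1.2.2.1]
  have hy : mt x y = y.s := by linarith [h1.2.1, h1.2.2.1]
  refine Pt.ext' (hx.symm.trans hy) fun t => ?_
  rcases lt_or_ge t 0 with h0 | h0
  · rw [x.fneg t h0, y.fneg t h0]
  · rcases lt_or_ge t (mt x y) with h2 | h2
    · exact h1.2.2.2 t h0 h2
    · rw [x.fbig t (hx ▸ h2), y.fbig t (hy ▸ h2)]

noncomputable instance metr : MetricSpace Pt where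
  dist x y := x.s + y.s - 2 * mt x y
  dist_self x := by
    show x.s + x.s - 2 * mt x x = 0
    rw [mt_self]
    ring
  dist_comm x y := by
    show x.s + y.s - 2 * mt x y = y.s + x.s - 2 * mt y x
    rw [mt_symm]
    ring
  dist_triangle x y z := by
    show x.s + z.s - 2 * mt x z ≤ (x.s + y.s - 2 * mt x y) + (y.s + z.s - 2 * mt y z)
    have h1 := mt_tri x y z
    have h2 := (agree_mt x y).2.2.1
    have h3 := (agree_mt y z).2.1
    rcases le_total (mt x y) (mt y z) with h | h
    · rw [min_eq_left h] at h1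
      linarith
    · rw [min_eq_right h] at h1
      linarith
  eq_of_dist_eq_zero := fun h => eq_of_mt h

theorem dist_def (x y : Pt) : dist x y = x.s + y.s - 2 * mt x y := rfl

theorem abs_s_le (x y : Pt) : |x.s - y.s| ≤ dist x y := by
  have h := agree_mt x y
  rw [dist_def, abs_le]
  constructor <;> linarith [h.2.1, h.2.2.1]

instance comp : CompleteSpace Pt := by
  refine Metric.complete_of_cauchySeq_tendsto fun u hu => ?_
  have hs : CauchySeq fun n => (u n).s := by
    rw [Metric.cauchySeq_iff] at hu ⊢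
    intro ε hε
    obtain ⟨N, hN⟩ := hu ε hε
    refine ⟨N, fun m hm n hn => ?_⟩
    rw [Real.dist_eq]
    exact (abs_s_le _ _).trans_lt (hN m hm n hn)
  obtain ⟨s, hs⟩ := cauchySeq_tendsto_of_complete hs
  have hs0 : 0 ≤ s := ge_of_tendsto' hs fun n => (u n).s0
  classical
  let x : Pt :=
    { s := s
      f := fun t => decide (0 ≤ t ∧ t < s ∧ ∃ N : ℕ, ∀ n ≥ N, (u n).f t = true)
      s0 := hs0
      fneg := fun t ht => decide_eq_false fun h => absurd h.1 (not_le.2 ht)
      fbig := fun t ht => decide_eq_false fun h => absurd h.2.1 (not_lt.2 ht) }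
  refine ⟨x, ?_⟩
  rw [Metric.tendsto_atTop]
  intro ε hε
  rw [Metric.cauchySeq_iff] at hu
  rw [Metric.tendsto_atTop] at hs
  obtain ⟨N1, hN1⟩ := hu (ε / 6) (by positivity)
  obtain ⟨N2, hN2⟩ := hs (ε / 6) (by positivity)
  refine ⟨max N1 N2, fun n hn => ?_⟩
  have hn1 : N1 ≤ n := (le_max_left _ _).trans hn
  have hn2 : N2 ≤ n := (le_max_right _ _).trans hn
  have hsn : ∀ k, N2 ≤ k → |(u k).s - s| < ε / 6 := by
    intro k hk
    have := hN2 k hk
    rwa [Real.dist_eq] at this
  have hag : Agree (u n) x (max 0 (s - 2 * (ε / 6))) := by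
    have h1 := abs_lt.1 (hsn n hn2)
    refine ⟨le_max_left _ _, max_le (u n).s0 (by linarith), max_le hs0 ?_, fun t h0 ht => ?_⟩
    · show s - 2 * (ε / 6) ≤ s
      linarith
    · have ht' : t < s - 2 * (ε / 6) := by
        rcases lt_max_iff.1 ht with h | h
        · exact absurd h0 (not_le.2 h)
        · exact h
      have hk : ∀ k, max N1 N2 ≤ k → (u n).f t = (u k).f t := by
        intro k hk
        have hk1 : N1 ≤ k := (le_max_left _ _).trans hk
        have hk2 : N2 ≤ k := (le_max_right _ _).trans hk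
        have h2 := abs_lt.1 (hsn k hk2)
        have h3 := hN1 n hn1 k hk1
        rw [dist_def] at h3
        exact (agree_mt (u n) (u k)).2.2.2 t h0 (by linarith)
      show (u n).f t = decide (0 ≤ t ∧ t < s ∧ ∃ N : ℕ, ∀ n ≥ N, (u n).f t = true)
      cases hb : (u n).f t with
      | true =>
        symm
        refine decide_eq_true ⟨h0, by linarith, max N1 N2, fun k hk' => ?_⟩
        rw [← hk k hk', hb]
      | false =>
        symm
        refine decide_eq_false ?_
        rintro ⟨_, _, N, hN⟩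
        have h4 := hN (max N (max N1 N2)) (le_max_left _ _)
        rw [← hk _ (le_max_right _ _), hb] at h4
        exact Bool.false_ne_true h4
  have h5 := le_mt hag
  have h6 : s - 2 * (ε / 6) ≤ mt (u n) x := (le_max_right _ _).trans h5
  have h7 := abs_lt.1 (hsn n hn2)
  have h8 : x.s = s := rfl
  rw [dist_def, h8]
  linarith

theorem ext_up (u y : Pt) (r : ℝ) (hr : u.s ≤ r) :
    ∃ v : Pt, v.s = r ∧ mt v y = mt u y ∧ mt u v = u.s := by
  classical
  let v : Pt :=
    { s := r
      f := fun t => if t < u.s then u.f t else (if t < r then !(y.f t) else false)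
      s0 := u.s0.trans hr
      fneg := fun t ht => by
        rw [if_pos (ht.trans_le u.s0)]
        exact u.fneg t ht
      fbig := fun t ht => by
        rw [if_neg (not_lt.2 (hr.trans ht)), if_neg (not_lt.2 ht)] }
  have hv1 : ∀ t, t < u.s → v.f t = u.f t := fun t ht => if_pos ht
  have hv2 : ∀ t, u.s ≤ t → t < r → v.f t = !(y.f t) := fun t ht ht' => by
    show (if t < u.s then u.f t else (if t < r then !(y.f t) else false)) = !(y.f t)
    rw [if_neg (not_lt.2 ht), if_pos ht']
  refine ⟨v, rfl, ?_, ?_⟩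
  · have h1 := agree_mt u y
    refine mt_eq ⟨h1.1, h1.2.1.trans hr, h1.2.2.1, fun t h0 ht => ?_⟩ fun r' hr' => ?_
    · rw [hv1 t (ht.trans_le h1.2.1)]
      exact h1.2.2.2 t h0 ht
    · have h2 : r' ≤ u.s := by
        by_contra hcon
        rw [not_le] at hcon
        have h3 := hr'.2.2.2 u.s u.s0 hcon
        rw [hv2 u.s le_rfl (hcon.trans_le hr'.2.1)] at h3
        exact Bool.not_ne_self (y.f u.s) h3
      refine le_mt ⟨hr'.1, h2, hr'.2.2.1, fun t h0 ht => ?_⟩
      rw [← hv1 t (ht.trans_le h2)]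
      exact hr'.2.2.2 t h0 ht
  · exact mt_eq ⟨u.s0, le_rfl, hr, fun t _ ht => (hv1 t ht).symm⟩ fun r' hr' => hr'.2.1

end TreeAux

open TreeAux in
/-- RT1: a complete real tree with branching everywhere. -/
theorem tree_spec : S_tree := by
  refine ⟨Pt, metr, comp, ⟨⟨0, fun _ => false, le_rfl, fun _ _ => rfl, fun _ _ => rfl⟩⟩,
    fun x => x.s, mt, ?_⟩
  exact
    { nonneg := fun x y => (agree_mt x y).1
      le := fun x y => (agree_mt x y).2.1
      symm := mt_symm
      self := mt_self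
      dist_eq := dist_def
      tri := mt_tri
      ext := fun u y r hr => ext_up u y r hr }

end Pool.Agent.Y938.RT
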